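import Pool.Agent.TRP.All

open Pool.Agent.TRP

namespace Pool.Agent.Results.MP_95d202_pr.PlanarNoDraw

/-- The case `d = 2`: Trap on site percolation of `ℤ²` has almost surely no draws for every
`p > 0`, hence `θ_2` is non-increasing on `[0, 1]`. -/
theorem result :
    (∀ p : ℝ, 0 < p → p ≤ 1 → theta 2 p = 0) ∧ AntitoneOn (theta 2) (Set.Icc 0 1) :=
  ⟨theta_two, theta_two_anti⟩

end Pool.Agent.Results.MP_95d202_pr.PlanarNoDraw
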