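import Pool.Agent.TRH.All

open Pool.Agent.TRP

namespace Pool.Agent.Results.MP_95d202_pr.SmallDensityDraws

/-- In every dimension `d ≥ 3`, Trap on site percolation of `ℤ^d` is a draw with positive
probability for all small closing densities `p`, and `θ_d` is strictly decreasing near `0`:
`θ_d(p) - θ_d(q) = (1 + O(q)) (q - p)` for `0 ≤ p ≤ q` small. -/
theorem result :
    ∀ d : ℕ, 3 ≤ d → ∃ e C : ℝ, 0 < e ∧ e ≤ 1 / 2 ∧ 0 < C ∧
      (∀ p, 0 ≤ p → p ≤ e → 0 < theta d p) ∧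
      StrictAntiOn (theta d) (Set.Icc 0 e) ∧
      ∀ p q, 0 ≤ p → p ≤ q → q ≤ e →
        |(theta d p - theta d q) - (q - p)| ≤ C * q * (q - p) :=
  Pool.Agent.TRH.theta_near_zero

end Pool.Agent.Results.MP_95d202_pr.SmallDensityDraws
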